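import Pool.Agent.Q251.SH.Cubes

/-!
# Permutation cubes whose order is not the order of an affine plane
-/

set_option autoImplicit false

namespace Pool.Agent.Results.MP_c7a479_co.OrdersWithoutPlanes

open Pool.Agent.H430R2.PermCubes

/-- There is an affine plane of order `n`: a set `P` of `n²` points with a family `L` of `n`-element
subsets (lines) such that two distinct points lie on exactly one line and through every point outside
a line `l` there is exactly one line disjoint from `l`. -/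
def HasAffinePlane (n : ℕ) : Prop :=
  ∃ (P : Type) (L : Set (Set P)), Nat.card P = n ^ 2 ∧ (∀ l ∈ L, l.ncard = n) ∧
    (∀ p q : P, p ≠ q → ∃! l, l ∈ L ∧ p ∈ l ∧ q ∈ l) ∧
    ∀ l ∈ L, ∀ p : P, p ∉ l → ∃! k, k ∈ L ∧ p ∈ k ∧ Disjoint k l

theorem plane_of_cc {n : ℕ} (hn : 2 ≤ n) (h : Pool.Agent.Y942.LY.CC n) : HasAffinePlane n := by
  obtain ⟨P, L, hL⟩ := (Pool.Agent.Y942.LY.plane_iff hn).2 h
  exact ⟨P, L, hL.points, hL.lines, hL.join, hL.parallel⟩

theorem cc_of_plane {n : ℕ} (hn : 2 ≤ n) (h : HasAffinePlane n) : Pool.Agent.Y942.LY.CC n := by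
  obtain ⟨P, L, h1, h2, h3, h4⟩ := h
  exact (Pool.Agent.Y942.LY.plane_iff hn).1 ⟨P, L, ⟨h1, h2, h3, h4⟩⟩

/-- (1) `π_m(n) ≤ π_2(n) + m` for all `m, n ≥ 2`.
(2) If `n ≥ 5` and there is no affine plane of order `n`, then `π_2(n) ≤ n - 4`, and
`π_m(n) ≤ n + m - 4` for every `m ≥ 2`.
(3) This holds if `n` is `1` or `2` modulo `4` and not a sum of two squares. -/
theorem result :
    (∀ m n k p : ℕ, 2 ≤ m → 2 ≤ n → IsPi m n k → IsPi 2 n p → k ≤ p + m) ∧
    (∀ n : ℕ, 5 ≤ n → ¬ HasAffinePlane n →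
      (∀ p, IsPi 2 n p → p + 4 ≤ n) ∧ ∀ m k, 2 ≤ m → IsPi m n k → k + 4 ≤ n + m) ∧
    (∀ n : ℕ, n % 4 = 1 ∨ n % 4 = 2 → (∀ a b : ℕ, n ≠ a ^ 2 + b ^ 2) →
      (∀ p, IsPi 2 n p → p + 4 ≤ n) ∧ ∀ m k, 2 ≤ m → IsPi m n k → k + 4 ≤ n + m) := by
  have h2 : ∀ n : ℕ, 5 ≤ n → ¬ HasAffinePlane n →
      (∀ p, IsPi 2 n p → p + 4 ≤ n) ∧ ∀ m k, 2 ≤ m → IsPi m n k → k + 4 ≤ n + m := by
    intro n hn hno
    have hsq : ∀ (p : ℕ) (D : Fin p → (Fin 2 → Fin n) → Fin n), IsVariationalSet 2 n p D →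
        p + 4 ≤ n := by
      intro p D hD
      by_contra hcon
      exact hno (plane_of_cc (by omega) (Pool.Agent.Q251.SH.cc_of_squares hn (by omega) D hD))
    refine ⟨fun p hp => ?_, fun m k hm hk => ?_⟩
    · obtain ⟨D, hD⟩ := hp.1
      exact hsq p D hD
    · obtain ⟨C, hC⟩ := hk.1
      rcases Nat.lt_or_ge k m with h | h
      · omega
      · obtain ⟨D, hD⟩ := Pool.Agent.Q251.SH.derive hm (by omega) h C hC
        have := hsq _ D hD
        omega
  refine ⟨?_, h2, ?_⟩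
  · intro m n k p hm hn hk hp
    obtain ⟨C, hC⟩ := hk.1
    rcases Nat.lt_or_ge k m with h | h
    · omega
    · obtain ⟨D, hD⟩ := Pool.Agent.Q251.SH.derive hm (by omega) h C hC
      have := hp.2 ⟨D, hD⟩
      omega
  · intro n h4 hsq
    have hn : 5 ≤ n := by
      by_contra hcon
      push Not at hcon
      have : n = 1 ∨ n = 2 := by omega
      rcases this with rfl | rfl
      · exact hsq 1 0 (by norm_num)
      · exact hsq 1 1 (by norm_num)
    refine h2 n hn fun hpl => ?_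
    obtain ⟨a, b, hab⟩ := Pool.Agent.Y942.LY.br_cc (by omega) h4 (cc_of_plane (by omega) hpl)
    exact hsq a b hab

end Pool.Agent.Results.MP_c7a479_co.OrdersWithoutPlanes
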