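import Pool.Agent.H430R2.PermCubes.Upper
import Pool.Agent.H430R2.PermCubes.Two
import Pool.Agent.H430R2.PermCubes.Lower
import Pool.Agent.TH302.Cubes.Odd
import Pool.Agent.TH302.Tarry.Upper
import Pool.Agent.TH7.Cyc.Main

set_option autoImplicit false

/-!
# Variational cubes exist for all dimensions `m ≥ 3` and all orders `n ≠ 2`

For `m ≥ 3` there are `m` permutation cubes of dimension `m` and order `n ≥ 2` that form a
variational cube if and only if `n ≠ 2`, and `π_m(6)` is `m` or `m + 1` for every `m ≥ 3`. The case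
`m = 3`, `n = 6` was missing. Three latin squares `L 0`, `L 1`, `L 2` with values in the integers
modulo six whose differences are jointly injective give the three cubes
`C_i (x, y, z) = x + L i (y, z)` of dimension three.
-/

namespace Pool.Agent.Results.MP_c7a479_co.VariationalCubesExist

open Function Pool.Agent.H430R2.PermCubes Pool.Agent.TH302.Cubes

/-- the three cubes of dimension three and order six -/
def cube6 (c : Fin 3) (x : Fin 3 → Fin 6) : Fin 6 := x 0 + sq c (x 1) (x 2)

theorem cube6_line (c : Fin 3) : IsPermutationCube 3 6 (cube6 c) := by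
  intro i x
  fin_cases i
  · simpa [cube6] using bij_add_const' (f := fun t : Fin 6 => t) bijective_id _
  · simpa [cube6] using bij_add_const (isTriple_sq.col c (x 2)) (x 0)
  · simpa [cube6] using bij_add_const (isTriple_sq.row c (x 1)) (x 0)

theorem cube6_inj {x y : Fin 3 → Fin 6} (h : ∀ c, cube6 c x = cube6 c y) : x = y := by
  have h0 := h 0
  have h1 := h 1
  have h2 := h 2
  simp only [cube6] at h0 h1 h2
  have e1 : sq 1 (x 1) (x 2) - sq 0 (x 1) (x 2) = sq 1 (y 1) (y 2) - sq 0 (y 1) (y 2) := by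
    have := congrArg₂ (· - ·) h1 h0
    simpa [add_sub_add_left_eq_sub] using this
  have e2 : sq 2 (x 1) (x 2) - sq 0 (x 1) (x 2) = sq 2 (y 1) (y 2) - sq 0 (y 1) (y 2) := by
    have := congrArg₂ (· - ·) h2 h0
    simpa [add_sub_add_left_eq_sub] using this
  obtain ⟨hp, hq⟩ := isTriple_sq.inj _ _ _ _ e1 e2
  rw [hp, hq] at h0
  have hr : x 0 = y 0 := add_right_cancel h0
  funext i
  fin_cases i
  · exact hr
  · exact hp
  · exact hq

/-- three permutation cubes of dimension three and order six which form a variational cube -/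
theorem cube6_var : IsVariationalSet 3 6 3 cube6 := by
  refine ⟨cube6_line, fun e he => ?_⟩
  rw [← Finite.injective_iff_bijective]
  intro x y hxy
  have hs : Surjective e := Finite.injective_iff_surjective.1 he
  refine cube6_inj fun c => ?_
  obtain ⟨i, rfl⟩ := hs c
  exact congrFun hxy i

theorem restrict {m n k l : ℕ} (hl : l ≤ k) {C : Fin k → (Fin m → Fin n) → Fin n}
    (h : IsVariationalSet m n k C) : IsVariationalSet m n l (fun i => C (Fin.castLE hl i)) :=
  ⟨fun i => h.1 _, fun e he => h.2 (fun i => Fin.castLE hl (e i))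
    (fun _ _ hab => he (Fin.castLE_injective hl hab))⟩

theorem exists_six {m : ℕ} (hm : 3 ≤ m) :
    ∃ C : Fin m → (Fin m → Fin 6) → Fin 6, IsVariationalSet m 6 m C := by
  rcases Nat.even_or_odd m with he | ho
  · have h4 : 4 ≤ m := by
      obtain ⟨k, rfl⟩ := he
      omega
    obtain ⟨C, hC⟩ := Pool.Agent.TH7.Cyc.exists_cyc_even h4 he
    exact ⟨C, hC.1⟩
  · rcases Nat.lt_or_ge m 5 with h5 | h5
    · have : m = 3 := by
        obtain ⟨k, rfl⟩ := ho
        omega
      subst this
      exact ⟨cube6, cube6_var⟩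
    · obtain ⟨C, hC⟩ := exists_odd h5 ho
      exact ⟨_, restrict (Nat.le_succ m) hC⟩

/-- For every dimension `m ≥ 3` and every order `n ≥ 2` there is a variational cube of `m`
permutation cubes if and only if `n ≠ 2`. In particular `π_m(6) = m` or `π_m(6) = m + 1` for every
`m ≥ 3`. -/
theorem result :
    (∀ m n : ℕ, 3 ≤ m → 2 ≤ n →
      ((∃ C : Fin m → (Fin m → Fin n) → Fin n, IsVariationalSet m n m C) ↔ n ≠ 2)) ∧
    (∀ m : ℕ, 3 ≤ m → IsPi m 6 m ∨ IsPi m 6 (m + 1)) := by
  have hup : ∀ m k : ℕ, 2 ≤ m → ∀ C : Fin k → (Fin m → Fin 6) → Fin 6,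
      IsVariationalSet m 6 k C → k ≤ m + 1 := fun m k hm C hC =>
    Pool.Agent.TH302.Tarry.le_of_array hC.2 hm
  refine ⟨fun m n hm hn => ⟨?_, fun h2 => ?_⟩, fun m hm => ?_⟩
  · rintro ⟨C, hC⟩ rfl
    have := two_le hC (by omega : 2 ≤ m)
    omega
  · by_cases h6 : n = 6
    · subst h6
      exact exists_six hm
    · obtain ⟨C, hC⟩ := exists_succ hm (by omega : n ≠ 0) h2 h6
      exact ⟨_, restrict (Nat.le_succ m) hC⟩
  · by_cases h : ∃ C : Fin (m + 1) → (Fin m → Fin 6) → Fin 6, IsVariationalSet m 6 (m + 1) C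
    · exact Or.inr ⟨h, fun k ⟨C, hC⟩ => hup m k (by omega) C hC⟩
    · refine Or.inl ⟨exists_six hm, fun k ⟨C, hC⟩ => ?_⟩
      have hk := hup m k (by omega) C hC
      rcases Nat.lt_or_ge m k with hlt | hge
      · have : k = m + 1 := by omega
        subst this
        exact absurd ⟨C, hC⟩ h
      · exact hge

end Pool.Agent.Results.MP_c7a479_co.VariationalCubesExist
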